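import Pool.Agent.Helper58.RayMain

set_option autoImplicit false

namespace Pool.Agent.Results.MP_c0f1e3_an.RaysIffDimLeOne

open Pool.Agent.Helper58.Rays

universe u

/-- **Complete answer to Q1 of `MP_c0f1e3_an`.** For a finite-dimensional real or complex normed
space `V`, there are finitely many rays in `V` such that every finitely generated commutative
linear semigroup having an orbit coarsely dense along their union has a somewhere dense orbit,
if and only if `dim V ≤ 1`. -/
theorem result :
    (∀ (V : Type u) [NormedAddCommGroup V] [NormedSpace ℝ V] [FiniteDimensional ℝ V],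
      HasForcingRays ℝ V ↔ Module.finrank ℝ V ≤ 1) ∧
    (∀ (V : Type u) [NormedAddCommGroup V] [NormedSpace ℂ V] [FiniteDimensional ℂ V],
      HasForcingRays ℂ V ↔ Module.finrank ℂ V ≤ 1) :=
  main

end Pool.Agent.Results.MP_c0f1e3_an.RaysIffDimLeOne
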